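import Pool.Agent.Helper775.Surf.Fin

/-!
# Tight substantial surfaces with boundary in `ℝ^N`, `N ≥ 4`: the convex hull is a polytope

Positive answer to Q1. The definitions `TightSurf`, `CechTightSurf` are in
`Pool/Agent/Helper775/Surf/TDefs.lean`, `Substantial` is in
`Pool/Agent/Helper775/Tight/SingDefs.lean`. Surfaces are Mathlib's compact connected Hausdorff
spaces with an atlas modelled on the Euclidean half-plane, with non-empty boundary.

Idea. Extreme points have one preimage, which is a boundary point. Every slice of the hull close to
an extreme point has at least three exposed points and at most two of them come from the boundary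
curve, so infinitely many extreme points give infinitely many exposed edges `T` whose preimage meets
the interior of the surface. By tightness such an edge carries a non-zero class `τ` in
`H^1(M; ℤ/2)` vanishing off the preimage of `T`, and `H^1(M; ℤ/2)` is finite, so infinitely many
edges have the same `τ`. Since the preimage of the convex hull of a finite subset of a flat of
codimension at least two does not separate `M`, at most two of these share an endpoint, and if
`N ≥ 5` no three of them are disjoint. For `N = 4` a pair of disjoint edges for which the
separation argument fails has, for each of its edges, a supporting hyperplane containing the edge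
and touching all other edges with the same class; too many such hyperplanes are linearly dependent.
-/

namespace Pool.Agent.Results.MP_4139f5_gt.TightSurfacePolytope

open Pool.Agent.Helper775.Tight Pool.Agent.Helper775.Surf
open scoped Manifold Topology

/-- Let `M` be a compact connected surface with non-empty boundary, `N ≥ 4`, and let `f : M → ℝ^N`
be a topological immersion (continuous and locally injective) which is substantial and tight
(singular homology mod 2, or Čech theory mod 2). Then the convex hull of `f(M)` is the convex hull
of finitely many points. -/
theorem result {M : Type*} [TopologicalSpace M] [CompactSpace M] [T2Space M] [ConnectedSpace M]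
    [ChartedSpace (EuclideanHalfSpace 2) M] (hb : ((𝓡∂ 2).boundary M).Nonempty) {N : ℕ}
    (hN : 4 ≤ N) (f : M → EuclideanSpace ℝ (Fin N)) (hf : Continuous f)
    (hloc : ∀ x, ∃ U ∈ 𝓝 x, Set.InjOn f U) (hs : Substantial f)
    (ht : TightSurf f ∨ CechTightSurf f) :
    ∃ s : Finset (EuclideanSpace ℝ (Fin N)),
      convexHull ℝ (Set.range f) = convexHull ℝ (s : Set (EuclideanSpace ℝ (Fin N))) :=
  final_polytope hb hN f hf hloc hs ht

end Pool.Agent.Results.MP_4139f5_gt.TightSurfacePolytope
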